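import Pool.Agent.KS6_90.UF.Spaces

/-! Two applications of the uniform boundedness principle. -/

open MeasureTheory Set Filter
open scoped ContDiff ComplexConjugate BoundedContinuousFunction Topology

namespace Pool.Agent.KS6_90.UF

open Pool.Agent.Helper303.Db

/-- the singular boundary point -/
noncomputable def pt (m : ℕ) (b : ℂ → ℂ) : Fin (m + 2) → ℂ := Fm m b (Pi.single 0 1)

lemma pt_zero (m : ℕ) (b : ℂ → ℂ) : pt m b 0 = 1 := by
  unfold pt Fm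
  rw [upd_zero]
  simp

lemma pt_one (m : ℕ) (b : ℂ → ℂ) : pt m b 1 = b 1 := by
  unfold pt Fm
  rw [upd_one]
  simp

lemma pt_ss (m : ℕ) (b : ℂ → ℂ) (j : Fin m) : pt m b j.succ.succ = 0 := by
  unfold pt Fm
  rw [upd_ss]
  exact Pi.single_eq_of_ne (Fin.succ_ne_zero _) _

lemma et_near {R ρ : ℝ} (hR : 0 < R) (hρ : 0 < ρ) {z : ℂ} (hz : z ∈ tsupport (et R ρ)) :
    ‖z - 1‖ ≤ 10 / R := by
  have hcl : IsClosed {z : ℂ | ‖z - 1‖ ≤ 10 / R} :=
    isClosed_le (continuous_id.sub continuous_const).norm continuous_const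
  have hsub : Function.support (et R ρ) ⊆ {z : ℂ | ‖z - 1‖ ≤ 10 / R} := by
    intro w hw
    obtain ⟨⟨h1, h2⟩, h3, h4⟩ := et_supp (R := R) hρ hw
    show ‖w - 1‖ ≤ 10 / R
    rw [le_div_iff₀ hR]
    have h5 : ‖w - 1‖ ≤ |(w - 1).re| + |(w - 1).im| := Complex.norm_le_abs_re_add_abs_im _
    have h6 : (w - 1).re = w.re - 1 := by simp
    have h7 : (w - 1).im = w.im := by simp
    rw [h6, h7] at h5
    have h8 : 0 < 1 - w.re := by
      by_contra hcon
      have : R * (1 - w.re) ≤ 0 := by nlinarith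
      linarith
    have h9 : w.im ≤ 0 := by
      by_contra hcon
      have : 0 < R * w.im := mul_pos hR (not_le.1 hcon)
      linarith
    rw [abs_of_neg (by linarith), abs_of_nonpos h9] at h5
    have hpi := Real.pi_lt_d2
    nlinarith
  exact closure_minimal hsub hcl hz

lemma RR_large (δ : ℝ) (hδ : 0 < δ) : ∃ K₀ : ℕ, ∀ K ≥ K₀, 10 / RR K < δ := by
  obtain ⟨K₀, hK₀⟩ := exists_nat_gt (1 / δ)
  refine ⟨K₀, fun K hK => ?_⟩
  have h1 : (K : ℝ) < 3 ^ K := by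
    exact_mod_cast Nat.lt_pow_self (by norm_num : 1 < 3)
  have h2 : (K₀ : ℝ) ≤ K := by exact_mod_cast hK
  have h3 : RR K = 240 * 3 ^ K := by
    unfold RR rh
    field_simp
    norm_num
  rw [h3, div_lt_iff₀ (by positivity)]
  have h4 : 1 < (K₀ : ℝ) * δ := by
    rwa [div_lt_iff₀ hδ] at hK₀
  have h5 : 1 / δ < 3 ^ K := by linarith
  rw [div_lt_iff₀ hδ] at h5
  nlinarith

/-- the tubes shrink to the singular point -/
lemma tube {m : ℕ} (f : CP →ᵇ ℂ) {U : Set (Fin (m + 2) → ℂ)} (hU : IsOpen U)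
    (hpt : pt m (xt f) ∈ U) : ∃ K₀ : ℕ, ∀ K ≥ K₀, ∃ s : ℝ, 0 < s ∧
      ∀ p : Fin (m + 2) → ℂ, p 0 ∈ tsupport (et (RR K) (rh K)) → ‖vv m (xt f) p‖ ≤ s →
        p ∈ Om m (xt f) ∩ U := by
  obtain ⟨ε, hε, hεU⟩ := Metric.isOpen_iff.1 hU _ hpt
  have hc : ContinuousWithinAt (xt f) {z | z.re ≤ 1} 1 :=
    continuousOn_xt f 1 (by show (1 : ℂ).re ≤ 1; simp)
  rw [Metric.continuousWithinAt_iff] at hc
  obtain ⟨δ, hδ, hδc⟩ := hc (ε / 2) (by positivity)
  obtain ⟨K₀, hK₀⟩ := RR_large (min δ ε) (lt_min hδ hε)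
  refine ⟨K₀, fun K hK => ?_⟩
  obtain ⟨h1, h2⟩ := et_tsupport (R := RR K) (rh_pos K) le_rfl
  obtain ⟨s, hs0, hs⟩ := exists_small h1 h2 (xt f) m
  refine ⟨min s (ε / 4), lt_min hs0 (by positivity), ?_⟩
  intro p hp hv
  refine ⟨hs p hp (hv.trans (min_le_left _ _)), hεU ?_⟩
  have hv2 : ‖vv m (xt f) p‖ ≤ ε / 4 := hv.trans (min_le_right _ _)
  have hp1 : ‖p 0 - 1‖ < min δ ε := lt_of_le_of_lt (et_near (RR_pos K) (rh_pos K) hp) (hK₀ K hK)
  have hp2 : (p 0).re < 1 := ball_subset_HP (h2 hp)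
  rw [Metric.mem_ball, dist_pi_lt_iff hε]
  intro j
  refine Fin.cases ?_ (fun j => ?_) j
  · rw [pt_zero, dist_eq_norm]
    exact hp1.trans_le (min_le_right _ _)
  · refine Fin.cases ?_ (fun j => ?_) j
    · have e0 : (Fin.succ 0 : Fin (m + 2)) = 1 := rfl
      rw [e0, pt_one, dist_eq_norm]
      have e : p 1 - xt f 1 = vv m (xt f) p 0 + (xt f (p 0) - xt f 1) := by
        rw [vv_zero]
        ring
      rw [e]
      have h3 : ‖vv m (xt f) p 0‖ ≤ ε / 4 := (norm_le_pi_norm _ 0).trans hv2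
      have h4 : ‖xt f (p 0) - xt f 1‖ < ε / 2 := by
        rw [← dist_eq_norm]
        apply hδc (show (p 0).re ≤ 1 from hp2.le)
        rw [dist_eq_norm]
        exact hp1.trans_le (min_le_left _ _)
      calc _ ≤ ‖vv m (xt f) p 0‖ + ‖xt f (p 0) - xt f 1‖ := norm_add_le _ _
        _ < ε := by linarith
    · rw [pt_ss, dist_zero_right]
      have h3 : ‖vv m (xt f) p j.succ‖ ≤ ε / 4 := (norm_le_pi_norm _ j.succ).trans hv2
      rw [vv_succ] at h3
      linarith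

/-- the localized statement: there is a bounded solution near the singular point -/
def LocSol (m : ℕ) (b l : ℂ → ℂ) : Prop :=
  ∃ U : Set (Fin (m + 2) → ℂ), IsOpen U ∧ pt m b ∈ U ∧ ∃ (u : (Fin (m + 2) → ℂ) → ℂ) (M : ℝ),
    AEStronglyMeasurable u (volume.restrict (Om m b ∩ U)) ∧
    (∀ᵐ x ∂(volume.restrict (Om m b ∩ U)), ‖u x‖ ≤ M) ∧ SolvesDbar (Om m b ∩ U) u (fl m b l)

/-- the bilinear quantity -/
noncomputable def BB (K : ℕ) (b l : ℂ → ℂ) : ℂ :=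
  ∫ z, l z * (2 - z - conj z) * (conj (deriv b z) * et (RR K) (rh K) z)

lemma BB_bdd {m : ℕ} {f g : CP →ᵇ ℂ} (hf : f ∈ XX) (hg : g ∈ LL)
    (h : LocSol m (xt f) (lg g)) : ∃ C : ℝ, ∀ K : ℕ, ‖BB K (xt f) (lg g)‖ ≤ C := by
  obtain ⟨U, hU, hpt, u, M, hu, hM, hsol⟩ := h
  have hb : DifferentiableOn ℂ (xt f) HP := hf
  have hl : DifferentiableOn ℂ (lg g) HP := hg.1
  obtain ⟨K₀, hK₀⟩ := tube (m := m) f hU hpt
  have hbig : ∀ K ≥ K₀, ‖BB K (xt f) (lg g)‖ ≤ |M| * (10 * TT) := by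
    intro K hK
    obtain ⟨s, hs0, hs⟩ := hK₀ K hK
    obtain ⟨h1, h2⟩ := et_tsupport (R := RR K) (rh_pos K) le_rfl
    have hW : IsOpen (Om m (xt f) ∩ U) := (isOpen_Om (hb.mono ball_subset_HP)).inter hU
    have hstar := starW (et_cd (RR K) (rh K)) h1 h2 hb hl hW inter_subset_left hs0 hs hu hM hsol
    have h3 : 0 ≤ ∫ z, ‖dz (et (RR K) (rh K)) z‖ := integral_nonneg fun _ => norm_nonneg _
    calc ‖BB K (xt f) (lg g)‖ ≤ M * ∫ z, ‖dz (et (RR K) (rh K)) z‖ := hstar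
      _ ≤ |M| * ∫ z, ‖dz (et (RR K) (rh K)) z‖ := mul_le_mul_of_nonneg_right (le_abs_self _) h3
      _ ≤ |M| * (10 * TT) :=
          mul_le_mul_of_nonneg_left (int_dz_et (RR_pos K) (rh_pos K)) (abs_nonneg _)
  refine ⟨|M| * (10 * TT) + ∑ K ∈ Finset.range K₀, ‖BB K (xt f) (lg g)‖, fun K => ?_⟩
  have hT := TT_nonneg
  rcases lt_or_ge K K₀ with h | h
  · have h1 : ‖BB K (xt f) (lg g)‖ ≤ ∑ K ∈ Finset.range K₀, ‖BB K (xt f) (lg g)‖ :=
      Finset.single_le_sum (f := fun K => ‖BB K (xt f) (lg g)‖) (fun _ _ => norm_nonneg _)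
        (Finset.mem_range.2 h)
    have h2 : 0 ≤ |M| * (10 * TT) := by positivity
    linarith
  · have h1 := hbig K h
    have h2 : 0 ≤ ∑ K ∈ Finset.range K₀, ‖BB K (xt f) (lg g)‖ :=
      Finset.sum_nonneg fun _ _ => norm_nonneg _
    linarith

/-- the functional in the multiplier -/
lemma exists_SK (K : ℕ) {f : CP →ᵇ ℂ} (hf : f ∈ XX) :
    ∃ S : LL →L[ℂ] ℂ, ∀ g : LL, S g = BB K (xt f) (lg g.1) := by
  obtain ⟨h1, h2⟩ := et_tsupport (R := RR K) (rh_pos K) le_rfl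
  have hd : ContinuousOn (fun z => (2 - z - conj z) * conj (deriv (xt f) z)) HP := by
    have h3 : ContinuousOn (deriv (xt f)) HP := (((mem_XX f).1 hf).deriv isOpen_HP).continuousOn
    exact (((continuous_const.sub continuous_id).sub Complex.continuous_conj).continuousOn).mul
      (Complex.continuous_conj.comp_continuousOn h3)
  have hφ : Continuous fun z => ((2 - z - conj z) * conj (deriv (xt f) z)) *
      et (RR K) (rh K) z := cont_mul isOpen_HP hd (et_cd _ _).continuous (h2.trans ball_subset_HP)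
  have hc : HasCompactSupport fun z => ((2 - z - conj z) * conj (deriv (xt f) z)) *
      et (RR K) (rh K) z := h1.mul_left
  have hs : tsupport (fun z => ((2 - z - conj z) * conj (deriv (xt f) z)) *
      et (RR K) (rh K) z) ⊆ HP :=
    (tsupport_mul_subset_right).trans (h2.trans ball_subset_HP)
  obtain ⟨S, hS⟩ := exists_S hφ hc hs
  refine ⟨S, fun g => ?_⟩
  rw [hS]
  unfold BB
  congr 1
  funext z
  ring

/-- the value at the test element of `LL` -/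
lemma BB_gX (K : ℕ) (b : ℂ → ℂ) : BB K b (lg (gX K)) = BB K b (lam K (RR K)) := by
  unfold BB
  congr 1
  funext z
  by_cases hz : z ∈ tsupport (et (RR K) (rh K))
  · obtain ⟨_, h2⟩ := et_tsupport (R := RR K) (rh_pos K) le_rfl
    rw [gX_lg K (ball_subset_HP (h2 hz))]
  · rw [image_eq_zero_of_notMem_tsupport hz]
    simp

/-- there are `b` and `λ` for which even locally no bounded solution exists -/
theorem exists_bl (m : ℕ) : ∃ f ∈ XX, ∃ g ∈ LL, ¬ LocSol m (xt f) (lg g) := by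
  by_contra H
  push Not at H
  have hT : ∀ K : ℕ, ∃ T : XX →L[ℂ] ℂ, ∀ f : XX, T f = ∫ z, gK K z * deriv (xt f.1) z :=
    fun K => exists_TX (gK_cont K) (gK_supp K).1 (gK_supp K).2
  choose T hTf using hT
  have hTB : ∀ K (f : XX), ‖T K f‖ = ‖BB K (xt f.1) (lam K (RR K))‖ := by
    intro K f
    rw [hTf, gK_int, Complex.norm_conj]
    rfl
  have hbd : ∀ f : XX, ∃ C, ∀ K : ℕ, ‖T K f‖ ≤ C := by
    intro f
    have hS : ∀ K : ℕ, ∃ S : LL →L[ℂ] ℂ, ∀ g : LL, S g = BB K (xt f.1) (lg g.1) :=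
      fun K => exists_SK K f.2
    choose S hSg using hS
    obtain ⟨C, hC⟩ := banach_steinhaus (g := S) (fun g => by
      obtain ⟨C, hC⟩ := BB_bdd (m := m) f.2 g.2 (H f.1 f.2 g.1 g.2)
      exact ⟨C, fun K => by rw [hSg]; exact hC K⟩)
    refine ⟨C * (3 / 4), fun K => ?_⟩
    rw [hTB, ← BB_gX]
    have h1 : BB K (xt f.1) (lg (gX K)) = S K ⟨gX K, gX_mem K⟩ := (hSg K ⟨gX K, gX_mem K⟩).symm
    rw [h1]
    have h2 := (S K).le_opNorm ⟨gX K, gX_mem K⟩
    have h3 : ‖(⟨gX K, gX_mem K⟩ : LL)‖ ≤ 3 / 4 := gX_norm K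
    have h4 : 0 ≤ C := (norm_nonneg (S K)).trans (hC K)
    exact h2.trans (mul_le_mul (hC K) h3 (norm_nonneg _) h4)
  obtain ⟨C', hC'⟩ := banach_steinhaus hbd
  obtain ⟨K, hK⟩ := exists_nat_gt (400 * C' ^ 2 + 1)
  have hK0 : 0 < K := by
    have : (0 : ℝ) < K := by nlinarith [sq_nonneg C']
    exact_mod_cast this
  have h1 : ‖T K ⟨fX K hK0, fX_mem K hK0⟩‖ ≤ C' * 2 := by
    have h2 := (T K).le_opNorm ⟨fX K hK0, fX_mem K hK0⟩
    have h3 : ‖(⟨fX K hK0, fX_mem K hK0⟩ : XX)‖ ≤ 2 := fX_norm K hK0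
    have h4 : 0 ≤ C' := (norm_nonneg (T K)).trans (hC' K)
    exact h2.trans (mul_le_mul (hC' K) h3 (norm_nonneg _) h4)
  have h2 : BB K (xt (fX K hK0)) (lam K (RR K)) = ∫ z, lam K (RR K) z * (2 - z - conj z) *
        (conj (deriv (bb (RR K) (PQ (1 / Real.sqrt K) K).1) z) * et (RR K) (rh K) z) := by
    unfold BB
    congr 1
    funext z
    by_cases hz : z ∈ tsupport (et (RR K) (rh K))
    · obtain ⟨_, h2⟩ := et_tsupport (R := RR K) (rh_pos K) le_rfl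
      rw [fX_deriv K hK0 (ball_subset_HP (h2 hz))]
    · rw [image_eq_zero_of_notMem_tsupport hz]
      simp
  rw [hTB] at h1
  have h1' : ‖BB K (xt (fX K hK0)) (lam K (RR K))‖ ≤ C' * 2 := h1
  rw [h2] at h1'
  have h3 := (low K hK0 (RR_pos K) (rh_pos K) (rh_le K)).trans h1'
  have h4 : Real.sqrt K ≤ 20 * C' := by linarith
  have h5 : (K : ℝ) ≤ (20 * C') ^ 2 := by
    have h6 : 0 ≤ Real.sqrt K := Real.sqrt_nonneg _
    calc (K : ℝ) = Real.sqrt K ^ 2 := (Real.sq_sqrt (Nat.cast_nonneg K)).symm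
      _ ≤ _ := by gcongr
  nlinarith

end Pool.Agent.KS6_90.UF
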