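import Pool.Graph.R_seed8.Helper303.DbMain

/-!
The `(0,1)`-form `-λ(z) conj(w - b(z)) dz̄ + λ(z)(2 - z - z̄) dw̄` with a general holomorphic `λ`
on the half plane `Re z < 1`.
-/

open MeasureTheory Set
open scoped ContDiff ComplexConjugate

namespace Pool.Agent.KS6_90.UF

open Pool.Agent.Helper303.Db

/-- the half plane `Re z < 1` -/
def HP : Set ℂ := {z | z.re < 1}

/-- the half space `Re z₀ < 1` -/
def HS (m : ℕ) : Set (Fin (m + 2) → ℂ) := {p | (p 0).re < 1}

lemma mem_HP (z : ℂ) : z ∈ HP ↔ z.re < 1 := Iff.rfl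

lemma mem_HS {m : ℕ} (p : Fin (m + 2) → ℂ) : p ∈ HS m ↔ (p 0).re < 1 := Iff.rfl

lemma isOpen_HP : IsOpen HP := isOpen_lt Complex.continuous_re continuous_const

lemma isOpen_HS (m : ℕ) : IsOpen (HS m) :=
  isOpen_lt (Complex.continuous_re.comp (continuous_apply 0)) continuous_const

lemma ball_subset_HP : Metric.ball (0 : ℂ) 1 ⊆ HP := by
  intro z hz
  exact lt_of_le_of_lt (Complex.re_le_norm z) (mem_ball_zero_iff.1 hz)

/-- the `(0,1)`-form -/
noncomputable def fl (m : ℕ) (b l : ℂ → ℂ) (p : Fin (m + 2) → ℂ) (j : Fin (m + 2)) : ℂ :=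
  if j = 0 then -l (p 0) * conj (p 1 - b (p 0))
  else if j = 1 then l (p 0) * (2 - p 0 - conj (p 0)) else 0

variable {m : ℕ} {b l : ℂ → ℂ}

lemma fl_zero (p : Fin (m + 2) → ℂ) : fl m b l p 0 = -l (p 0) * conj (p 1 - b (p 0)) := by
  simp [fl]

lemma fl_one (p : Fin (m + 2) → ℂ) : fl m b l p 1 = l (p 0) * (2 - p 0 - conj (p 0)) := by
  simp [fl]

lemma fl_ss (p : Fin (m + 2) → ℂ) (j : Fin m) : fl m b l p j.succ.succ = 0 := by
  simp only [fl]
  rw [if_neg (Fin.succ_ne_zero _), if_neg (ss_ne_one j)]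

section

variable (hb : DifferentiableOn ℂ b HP) (hl : DifferentiableOn ℂ l HP)

lemma diff0 {c : ℂ → ℂ} (hc : DifferentiableOn ℂ c HP) :
    DifferentiableOn ℂ (fun p : Fin (m + 2) → ℂ => c (p 0)) (HS m) := by
  have h0 : DifferentiableOn ℂ (fun p : Fin (m + 2) → ℂ => p 0) (HS m) :=
    (differentiable_apply (𝕜 := ℂ) (0 : Fin (m + 2))).differentiableOn
  exact hc.comp h0 (fun p hp => hp)

lemma diffAt0 {c : ℂ → ℂ} (hc : DifferentiableOn ℂ c HP) {x : Fin (m + 2) → ℂ} (hx : x ∈ HS m) :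
    DifferentiableAt ℂ (fun p : Fin (m + 2) → ℂ => c (p 0)) x :=
  (diff0 hc).differentiableAt ((isOpen_HS m).mem_nhds hx)

lemma fderiv0 {c : ℂ → ℂ} (hc : DifferentiableOn ℂ c HP) {x : Fin (m + 2) → ℂ} (hx : x ∈ HS m)
    (v : Fin (m + 2) → ℂ) :
    fderiv ℂ (fun p : Fin (m + 2) → ℂ => c (p 0)) x v = deriv c (x 0) * v 0 := by
  have h1 : HasDerivAt c (deriv c (x 0)) (x 0) :=
    (hc.differentiableAt (isOpen_HP.mem_nhds hx)).hasDerivAt
  have h2 := h1.hasFDerivAt.comp x (hasF_apply (m := m) 0 x)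
  have h3 : fderiv ℂ (fun p : Fin (m + 2) → ℂ => c (p 0)) x = _ := h2.fderiv
  rw [h3]
  simp
  ring

include hb hl in
lemma dbar_fl_zero {x : Fin (m + 2) → ℂ} (hx : x ∈ HS m) (k : Fin (m + 2)) :
    dbar k (fun p => fl m b l p 0) x =
      -l (x 0) * conj ((Pi.single k (1 : ℂ) : Fin (m + 2) → ℂ) 1 -
        deriv b (x 0) * (Pi.single k (1 : ℂ) : Fin (m + 2) → ℂ) 0) := by
  have hl' : DifferentiableAt ℂ (fun p : Fin (m + 2) → ℂ => -l (p 0)) x := (diffAt0 hl hx).fun_neg
  have hB : DifferentiableAt ℂ (fun p : Fin (m + 2) → ℂ => p 1 - b (p 0)) x :=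
    (hasF_apply (m := m) 1 x).differentiableAt.fun_sub (diffAt0 hb hx)
  have h := dbar_add_mul_conj hl' hB (differentiableAt_const (0 : ℂ)) k
  rw [dbar_congr k x (f := fun p => fl m b l p 0)
    (g := fun p => 0 + -l (p 0) * conj (p 1 - b (p 0)))
    (fun p => by rw [fl_zero, zero_add]), h]
  congr 2
  rw [fderiv_fun_sub (hasF_apply (m := m) 1 x).differentiableAt (diffAt0 hb hx)]
  rw [sub_apply, fderiv0 hb hx, (hasF_apply (m := m) 1 x).fderiv]
  rfl

include hl in
lemma dbar_fl_one {x : Fin (m + 2) → ℂ} (hx : x ∈ HS m) (k : Fin (m + 2)) :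
    dbar k (fun p => fl m b l p 1) x =
      -l (x 0) * conj ((Pi.single k (1 : ℂ) : Fin (m + 2) → ℂ) 0) := by
  have hl' : DifferentiableAt ℂ (fun p : Fin (m + 2) → ℂ => -l (p 0)) x := (diffAt0 hl hx).fun_neg
  have hC : DifferentiableAt ℂ (fun p : Fin (m + 2) → ℂ => l (p 0) * (2 - p 0)) x :=
    (diffAt0 hl hx).fun_mul
      ((differentiableAt_const (2 : ℂ)).fun_sub (hasF_apply (m := m) 0 x).differentiableAt)
  have h := dbar_add_mul_conj hl' (hasF_apply (m := m) 0 x).differentiableAt hC k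
  rw [dbar_congr k x (f := fun p => fl m b l p 1)
    (g := fun p => l (p 0) * (2 - p 0) + -l (p 0) * conj (p 0))
    (fun p => by rw [fl_one]; ring), h, (hasF_apply (m := m) 0 x).fderiv]
  rfl

include hb hl in
lemma contDiffOn_fl (j : Fin (m + 2)) : ContDiffOn ℝ ∞ (fun p => fl m b l p j) (HS m) := by
  have h0 : ∀ j : Fin (m + 2), ContDiff ℝ ∞ (fun p : Fin (m + 2) → ℂ => p j) := fun j =>
    contDiff_apply ℝ ℂ j
  have hcc : ∀ c : ℂ → ℂ, DifferentiableOn ℂ c HP →
      ContDiffOn ℝ ∞ (fun p : Fin (m + 2) → ℂ => c (p 0)) (HS m) := by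
    intro c hc
    have : ContDiffOn ℂ ∞ c HP := hc.contDiffOn isOpen_HP
    exact (this.restrict_scalars ℝ).comp (h0 0).contDiffOn (fun p hp => hp)
  have hconj : ContDiff ℝ ∞ (fun z : ℂ => conj z) := Complex.conjCLE.contDiff
  refine Fin.cases ?_ (fun j => ?_) j
  · have e : (fun p => fl m b l p 0) = fun p => -l (p 0) * conj (p 1 - b (p 0)) :=
      funext fun p => fl_zero p
    rw [e]
    exact (hcc l hl).neg.mul (hconj.comp_contDiffOn ((h0 1).contDiffOn.sub (hcc b hb)))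
  · refine Fin.cases ?_ (fun j => ?_) j
    · have e : (fun p => fl m b l p (Fin.succ 0)) =
          fun p => l (p 0) * (2 - p 0 - conj (p 0)) := funext fun p => fl_one p
      rw [e]
      exact (hcc l hl).mul ((contDiff_const.sub (h0 0)).sub (hconj.comp (h0 0))).contDiffOn
    · have e : (fun p => fl m b l p j.succ.succ) = fun p => 0 := funext fun p => fl_ss p j
      rw [e]
      exact contDiffOn_const

include hb hl in
/-- classical closedness on the whole half space -/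
lemma fl_closed_class {x : Fin (m + 2) → ℂ} (hx : x ∈ HS m) (j k : Fin (m + 2)) :
    dbar k (fun p => fl m b l p j) x = dbar j (fun p => fl m b l p k) x := by
  have hz : ∀ j : Fin m, ∀ k, dbar k (fun p => fl m b l p j.succ.succ) x = 0 := by
    intro j k
    rw [dbar_congr k x (fun p => fl_ss p j), dbar_zero]
  have h01 : dbar 1 (fun p => fl m b l p 0) x = dbar 0 (fun p => fl m b l p 1) x := by
    rw [dbar_fl_zero hb hl hx, dbar_fl_one hl hx]
    simp
  have h0s : ∀ j : Fin m, dbar j.succ.succ (fun p => fl m b l p 0) x = 0 := by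
    intro j
    rw [dbar_fl_zero hb hl hx]
    rw [Pi.single_eq_of_ne (ss_ne_one j).symm, Pi.single_eq_of_ne (Fin.succ_ne_zero _).symm]
    simp
  have h1s : ∀ j : Fin m, dbar j.succ.succ (fun p => fl m b l p 1) x = 0 := by
    intro j
    rw [dbar_fl_one hl hx]
    rw [Pi.single_eq_of_ne (Fin.succ_ne_zero _).symm]
    simp
  refine Fin.cases ?_ (fun j => ?_) j
  · refine Fin.cases rfl (fun k => ?_) k
    refine Fin.cases ?_ (fun k => ?_) k
    · exact h01
    · rw [h0s, hz]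
  · refine Fin.cases ?_ (fun j => ?_) j
    · refine Fin.cases ?_ (fun k => ?_) k
      · exact h01.symm
      · refine Fin.cases rfl (fun k => ?_) k
        rw [hz]
        exact h1s k
    · rw [hz]
      refine Fin.cases ?_ (fun k => ?_) k
      · rw [h0s]
      · refine Fin.cases ?_ (fun k => ?_) k
        · exact (h1s j).symm
        · rw [hz]

include hb hl in
lemma fl_closed {W : Set (Fin (m + 2) → ℂ)} (hW : IsOpen W) (hWH : W ⊆ HS m) :
    DbarClosed W (fl m b l) := by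
  apply dbarClosed_of_classical hW
  · intro j
    exact ((contDiffOn_fl hb hl j).mono hWH).of_le (by simp)
  · intro x hx j k
    exact fl_closed_class hb hl (hWH hx) j k

end

end Pool.Agent.KS6_90.UF
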