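import Pool.Agent.KS6_90.UF.Geom

/-! Genericity: the failure holds for a residual set of data. -/

open MeasureTheory Set Filter
open scoped ContDiff ComplexConjugate BoundedContinuousFunction Topology

namespace Pool.Agent.KS6_90.UF

open Pool.Agent.Helper303.Db

/-- the principle of condensation of singularities -/
lemma residual_unbdd {X : Type*} [NormedAddCommGroup X] [NormedSpace ℂ X] [CompleteSpace X]
    (T : ℕ → X →L[ℂ] ℂ) (h : ¬ ∃ C, ∀ K, ‖T K‖ ≤ C) :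
    ∀ᶠ x in residual X, ∀ C : ℝ, ∃ K, C < ‖T K x‖ := by
  have h1 : ∀ n : ℕ, ∀ᶠ x in residual X, ∃ K, (n : ℝ) < ‖T K x‖ := by
    intro n
    have hop : IsOpen {x | ∃ K, (n : ℝ) < ‖T K x‖} := by
      have : {x | ∃ K, (n : ℝ) < ‖T K x‖} = ⋃ K, {x | (n : ℝ) < ‖T K x‖} := by
        ext x
        simp
      rw [this]
      exact isOpen_iUnion fun K => isOpen_lt continuous_const (T K).continuous.norm
    apply residual_of_dense_open hop
    by_contra hd
    rw [Metric.dense_iff] at hd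
    push Not at hd
    obtain ⟨x₀, ε, hε, hx⟩ := hd
    have hx' : ∀ x ∈ Metric.ball x₀ ε, ∀ K, ‖T K x‖ ≤ n := by
      intro x hxb K
      by_contra hcon
      have : x ∈ Metric.ball x₀ ε ∩ {x | ∃ K, (n : ℝ) < ‖T K x‖} := ⟨hxb, K, not_le.1 hcon⟩
      rw [hx] at this
      exact this
    apply h
    apply banach_steinhaus
    intro y
    rcases eq_or_ne y 0 with rfl | hy
    · exact ⟨0, fun K => by simp⟩
    · have hy0 : 0 < ‖y‖ := norm_pos_iff.2 hy
      set t : ℝ := ε / (2 * ‖y‖) with ht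
      have ht0 : 0 < t := by positivity
      refine ⟨2 * n / t, fun K => ?_⟩
      have h2 : x₀ + (t : ℂ) • y ∈ Metric.ball x₀ ε := by
        rw [mem_ball_iff_norm, add_sub_cancel_left, norm_smul, Complex.norm_real,
          Real.norm_eq_abs, abs_of_pos ht0, ht]
        have : ε / (2 * ‖y‖) * ‖y‖ = ε / 2 := by field_simp
        rw [this]
        linarith
      have h3 := hx' _ h2 K
      have h4 := hx' x₀ (Metric.mem_ball_self hε) K
      have h5 : (t : ℂ) * T K y = T K (x₀ + (t : ℂ) • y) - T K x₀ := by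
        rw [map_add, map_smul, smul_eq_mul]
        ring
      have h6 : t * ‖T K y‖ ≤ 2 * n := by
        have h7 : ‖(t : ℂ) * T K y‖ = t * ‖T K y‖ := by
          rw [norm_mul, Complex.norm_real, Real.norm_eq_abs, abs_of_pos ht0]
        rw [← h7, h5]
        calc _ ≤ ‖T K (x₀ + (t : ℂ) • y)‖ + ‖T K x₀‖ := norm_sub_le _ _
          _ ≤ 2 * n := by linarith
      rw [le_div_iff₀ ht0]
      linarith
  filter_upwards [eventually_countable_forall.2 h1] with x hx C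
  obtain ⟨n, hn⟩ := exists_nat_gt C
  obtain ⟨K, hK⟩ := hx n
  exact ⟨K, hn.trans hK⟩

/-- generic failure -/
theorem generic : ∀ᶠ f in residual XX, ∀ᶠ g in residual LL, ∀ m : ℕ,
    ¬ LocSol m (xt f.1) (lg g.1) := by
  have hT : ∀ K : ℕ, ∃ T : XX →L[ℂ] ℂ, ∀ f : XX, T f = ∫ z, gK K z * deriv (xt f.1) z :=
    fun K => exists_TX (gK_cont K) (gK_supp K).1 (gK_supp K).2
  choose T hTf using hT
  have hTB : ∀ K (f : XX), ‖T K f‖ = ‖BB K (xt f.1) (lam K (RR K))‖ := by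
    intro K f
    rw [hTf, gK_int, Complex.norm_conj]
    rfl
  have hunb : ¬ ∃ C, ∀ K, ‖T K‖ ≤ C := by
    rintro ⟨C', hC'⟩
    obtain ⟨K, hK⟩ := exists_nat_gt (400 * C' ^ 2 + 1)
    have hK0 : 0 < K := by
      have : (0 : ℝ) < K := by nlinarith [sq_nonneg C']
      exact_mod_cast this
    have h1 : ‖T K ⟨fX K hK0, fX_mem K hK0⟩‖ ≤ C' * 2 := by
      have h2 := (T K).le_opNorm ⟨fX K hK0, fX_mem K hK0⟩
      have h3 : ‖(⟨fX K hK0, fX_mem K hK0⟩ : XX)‖ ≤ 2 := fX_norm K hK0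
      have h4 : 0 ≤ C' := (norm_nonneg (T K)).trans (hC' K)
      exact h2.trans (mul_le_mul (hC' K) h3 (norm_nonneg _) h4)
    have h2 : BB K (xt (fX K hK0)) (lam K (RR K)) = ∫ z, lam K (RR K) z * (2 - z - conj z) *
          (conj (deriv (bb (RR K) (PQ (1 / Real.sqrt K) K).1) z) * et (RR K) (rh K) z) := by
      unfold BB
      congr 1
      funext z
      by_cases hz : z ∈ tsupport (et (RR K) (rh K))
      · obtain ⟨_, h2⟩ := et_tsupport (R := RR K) (rh_pos K) le_rfl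
        rw [fX_deriv K hK0 (ball_subset_HP (h2 hz))]
      · rw [image_eq_zero_of_notMem_tsupport hz]
        simp
    rw [hTB] at h1
    have h1' : ‖BB K (xt (fX K hK0)) (lam K (RR K))‖ ≤ C' * 2 := h1
    rw [h2] at h1'
    have h3 := (low K hK0 (RR_pos K) (rh_pos K) (rh_le K)).trans h1'
    have h4 : Real.sqrt K ≤ 20 * C' := by linarith
    have h5 : (K : ℝ) ≤ (20 * C') ^ 2 := by
      have h6 : 0 ≤ Real.sqrt K := Real.sqrt_nonneg _
      calc (K : ℝ) = Real.sqrt K ^ 2 := (Real.sq_sqrt (Nat.cast_nonneg K)).symm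
        _ ≤ _ := by gcongr
    nlinarith
  filter_upwards [residual_unbdd T hunb] with f hf
  have hS : ∀ K : ℕ, ∃ S : LL →L[ℂ] ℂ, ∀ g : LL, S g = BB K (xt f.1) (lg g.1) :=
    fun K => exists_SK K f.2
  choose S hSg using hS
  have hSunb : ¬ ∃ C, ∀ K, ‖S K‖ ≤ C := by
    rintro ⟨C, hC⟩
    obtain ⟨K, hK⟩ := hf (C * (3 / 4))
    rw [hTB, ← BB_gX] at hK
    have h1 : BB K (xt f.1) (lg (gX K)) = S K ⟨gX K, gX_mem K⟩ := (hSg K ⟨gX K, gX_mem K⟩).symm
    rw [h1] at hK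
    have h2 := (S K).le_opNorm ⟨gX K, gX_mem K⟩
    have h3 : ‖(⟨gX K, gX_mem K⟩ : LL)‖ ≤ 3 / 4 := gX_norm K
    have h4 : 0 ≤ C := (norm_nonneg (S K)).trans (hC K)
    exact absurd hK (not_lt.2 (h2.trans (mul_le_mul (hC K) h3 (norm_nonneg _) h4)))
  filter_upwards [residual_unbdd S hSunb] with g hg m hloc
  obtain ⟨C, hC⟩ := BB_bdd f.2 g.2 hloc
  obtain ⟨K, hK⟩ := hg C
  rw [hSg] at hK
  exact absurd hK (not_lt.2 (hC K))

/-- the sup bound for the form on the domain -/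
lemma fl_bound {m : ℕ} {f g : CP →ᵇ ℂ} {q : Fin (m + 2) → ℂ} (hq : q ∈ Om m (xt f)) :
    Real.sqrt (∑ j, ‖fl m (xt f) (lg g) q j‖ ^ 2) ≤ 4 * ‖g‖ := by
  have hth := thin hq
  have hq1 : (q 0).re < 1 := lt_of_le_of_lt (Complex.re_le_norm _) (lt_of_mem_Om hq)
  have hlg : ‖lg g (q 0)‖ * (1 - (q 0).re) ≤ ‖g‖ := by
    unfold lg
    have h2 : 1 - (q 0).re ≠ 0 := by linarith
    rw [norm_mul, norm_inv, Complex.norm_real, Real.norm_eq_abs,
      abs_of_nonneg (by linarith), mul_assoc, inv_mul_cancel₀ h2, mul_one]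
    exact norm_xt_le _ _
  have h0 : 0 ≤ ‖lg g (q 0)‖ := norm_nonneg _
  rw [Fin.sum_univ_succ, Fin.sum_univ_succ]
  have hs : ∑ j : Fin m, ‖fl m (xt f) (lg g) q j.succ.succ‖ ^ 2 = 0 := by
    apply Finset.sum_eq_zero
    intro j _
    rw [fl_ss]
    simp
  have h1 : ‖fl m (xt f) (lg g) q 0‖ ≤ 2 * ‖g‖ := by
    rw [fl_zero, norm_mul, norm_neg, Complex.norm_conj]
    calc ‖lg g (q 0)‖ * ‖q 1 - xt f (q 0)‖ ≤ ‖lg g (q 0)‖ * (2 * (1 - (q 0).re)) := by gcongr
      _ ≤ 2 * ‖g‖ := by linarith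
  have h2 : ‖fl m (xt f) (lg g) q (Fin.succ 0)‖ ≤ 2 * ‖g‖ := by
    have e0 : (Fin.succ 0 : Fin (m + 2)) = 1 := rfl
    rw [e0, fl_one, norm_mul]
    have e : (2 - q 0 - conj (q 0)) = ((2 * (1 - (q 0).re) : ℝ) : ℂ) := by
      apply Complex.ext
      · simp
        ring
      · simp
    rw [e, Complex.norm_real, Real.norm_eq_abs, abs_of_nonneg (by linarith)]
    linarith
  have hg0 : 0 ≤ ‖g‖ := norm_nonneg _
  rw [hs, Real.sqrt_le_left (by positivity)]
  nlinarith [norm_nonneg (fl m (xt f) (lg g) q 0), norm_nonneg (fl m (xt f) (lg g) q (Fin.succ 0))]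

/-- uniform estimates would give a bounded solution -/
lemma not_UE {m : ℕ} {f g : CP →ᵇ ℂ} (hf : f ∈ XX) (hg : g ∈ LL)
    (h : ¬ LocSol m (xt f) (lg g)) : ¬ UniformEstimates (Om m (xt f)) := by
  rintro ⟨C, hC⟩
  have hb : DifferentiableOn ℂ (xt f) HP := hf
  have hO : IsOpen (Om m (xt f)) := isOpen_Om (hb.mono ball_subset_HP)
  have hOH : Om m (xt f) ⊆ HS m := fun p hp => ball_subset_HP (mem_ball_zero_iff.2 (lt_of_mem_Om hp))
  have hm : AEStronglyMeasurable (fl m (xt f) (lg g)) (volume.restrict (Om m (xt f))) := by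
    have h1 : ContinuousOn (fl m (xt f) (lg g)) (Om m (xt f)) := by
      rw [continuousOn_pi]
      intro j
      exact (contDiffOn_fl hf hg.1 j).continuousOn.mono hOH
    exact h1.aestronglyMeasurable hO.measurableSet
  obtain ⟨u, hu1, hu2, hu3⟩ := hC (fl m (xt f) (lg g)) (4 * ‖g‖) hm
    (by
      rw [ae_restrict_iff' hO.measurableSet]
      exact Filter.Eventually.of_forall fun x hx => fl_bound hx)
    (fl_closed hf hg.1 hO hOH)
  apply h
  refine ⟨univ, isOpen_univ, mem_univ _, u, C * (4 * ‖g‖), ?_, ?_, ?_⟩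
  · rwa [inter_univ]
  · rwa [inter_univ]
  · rwa [inter_univ]

end Pool.Agent.KS6_90.UF
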