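import Pool.Agent.KS6_90.UF.BS

/-! Geometry of the map `F(p) = (p₀, b(p₀) + (1 - p₀) p₁, p₂, …)` on the closed ball. -/

open MeasureTheory Set Filter
open scoped ContDiff ComplexConjugate BoundedContinuousFunction Topology

namespace Pool.Agent.KS6_90.UF

open Pool.Agent.Helper303.Db

/-- the closed Euclidean unit ball -/
def closedUnitBall (n : ℕ) : Set (Fin n → ℂ) := {z | ∑ j, ‖z j‖ ^ 2 ≤ 1}

/-- the Euclidean unit sphere -/
def unitSphere (n : ℕ) : Set (Fin n → ℂ) := {z | ∑ j, ‖z j‖ ^ 2 = 1}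

lemma continuous_sq (n : ℕ) : Continuous fun z : Fin n → ℂ => ∑ j, ‖z j‖ ^ 2 := by fun_prop

lemma isClosed_cb (n : ℕ) : IsClosed (closedUnitBall n) :=
  isClosed_le (continuous_sq n) continuous_const

lemma isCompact_cb (n : ℕ) : IsCompact (closedUnitBall n) := by
  apply Metric.isCompact_of_isClosed_isBounded (isClosed_cb n)
  rw [isBounded_iff_forall_norm_le]
  refine ⟨1, fun z hz => ?_⟩
  rw [pi_norm_le_iff_of_nonneg zero_le_one]
  intro j
  have h1 : ‖z j‖ ^ 2 ≤ ∑ j, ‖z j‖ ^ 2 :=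
    Finset.single_le_sum (f := fun j => ‖z j‖ ^ 2) (fun _ _ => by positivity) (Finset.mem_univ j)
  have h2 : ‖z j‖ ^ 2 ≤ 1 := h1.trans hz
  nlinarith [norm_nonneg (z j)]

lemma ball_sub_cb (n : ℕ) : unitBall n ⊆ closedUnitBall n := by
  intro z hz
  have h : ∑ j, ‖z j‖ ^ 2 < 1 := hz
  exact h.le

lemma closure_ball (n : ℕ) : closure (unitBall n) = closedUnitBall n := by
  apply Subset.antisymm (closure_minimal (ball_sub_cb n) (isClosed_cb n))
  intro z hz
  have h1 : Tendsto (fun k : ℕ => (1 - 1 / ((k : ℝ) + 1)) • z) atTop (𝓝 ((1 - 0 : ℝ) • z)) :=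
    (tendsto_const_nhds.sub tendsto_one_div_add_atTop_nhds_zero_nat).smul_const z
  rw [sub_zero, one_smul] at h1
  apply mem_closure_of_tendsto h1
  apply Eventually.of_forall
  intro k
  have hk : 0 ≤ 1 - 1 / ((k : ℝ) + 1) ∧ 1 - 1 / ((k : ℝ) + 1) < 1 := by
    have h2 : 0 < (k : ℝ) + 1 := by positivity
    have h3 : 1 / ((k : ℝ) + 1) ≤ 1 := by
      rw [div_le_one h2]
      have : (0 : ℝ) ≤ k := Nat.cast_nonneg k
      linarith
    have h4 : 0 < 1 / ((k : ℝ) + 1) := by positivity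
    exact ⟨by linarith, by linarith⟩
  set t := 1 - 1 / ((k : ℝ) + 1) with ht
  show ∑ j, ‖(t • z) j‖ ^ 2 < 1
  have e : ∑ j, ‖(t • z) j‖ ^ 2 = t ^ 2 * ∑ j, ‖z j‖ ^ 2 := by
    rw [Finset.mul_sum]
    apply Finset.sum_congr rfl
    intro j _
    rw [Pi.smul_apply, norm_smul, Real.norm_eq_abs, abs_of_nonneg hk.1]
    ring
  rw [e]
  have hz' : ∑ j, ‖z j‖ ^ 2 ≤ 1 := hz
  have h0 : 0 ≤ ∑ j, ‖z j‖ ^ 2 := Finset.sum_nonneg fun _ _ => by positivity
  have h5 : t ^ 2 < 1 := by nlinarith [hk.1, hk.2]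
  nlinarith [sq_nonneg t]

variable {m : ℕ} {b : ℂ → ℂ}

lemma mem_cb (p : Fin (m + 2) → ℂ) : p ∈ closedUnitBall (m + 2) ↔
    ‖p 0‖ ^ 2 + (‖p 1‖ ^ 2 + ∑ j : Fin m, ‖p j.succ.succ‖ ^ 2) ≤ 1 := by
  unfold closedUnitBall
  rw [Set.mem_ofPred_eq, Fin.sum_univ_succ, Fin.sum_univ_succ]
  rfl

lemma cb_re_le {p : Fin (m + 2) → ℂ} (hp : p ∈ closedUnitBall (m + 2)) : (p 0).re ≤ 1 := by
  rw [mem_cb] at hp
  have h1 := sum_nonneg' p
  have h2 : ‖p 0‖ ≤ 1 := by nlinarith [norm_nonneg (p 0), sq_nonneg ‖p 1‖]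
  exact (Complex.re_le_norm _).trans h2

/-- the only point of the closed ball which is not in the half space is the pole -/
lemma cb_pole {p : Fin (m + 2) → ℂ} (hp : p ∈ closedUnitBall (m + 2)) (h : ¬ (p 0).re < 1) :
    p = Pi.single 0 1 := by
  have hre : (p 0).re = 1 := le_antisymm (cb_re_le hp) (not_lt.1 h)
  rw [mem_cb] at hp
  have h1 := sum_nonneg' p
  have h2 : ‖p 0‖ ^ 2 = (p 0).re ^ 2 + (p 0).im ^ 2 := by
    rw [← Complex.normSq_eq_norm_sq, Complex.normSq_apply]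
    ring
  have him : (p 0).im ^ 2 ≤ 0 := by
    rw [h2, hre] at hp
    nlinarith [sq_nonneg ‖p 1‖]
  have him0 : (p 0).im = 0 := by nlinarith [sq_nonneg (p 0).im]
  have hp0 : p 0 = 1 := Complex.ext (by simpa using hre) (by simpa using him0)
  rw [hp0, norm_one] at hp
  have hp1 : ‖p 1‖ ^ 2 ≤ 0 := by linarith
  have hp1' : p 1 = 0 := by
    have : ‖p 1‖ = 0 := by nlinarith [norm_nonneg (p 1), sq_nonneg ‖p 1‖]
    exact norm_eq_zero.1 this
  have hps : ∀ j : Fin m, p j.succ.succ = 0 := by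
    intro j
    have h3 : ‖p j.succ.succ‖ ^ 2 ≤ ∑ j : Fin m, ‖p j.succ.succ‖ ^ 2 :=
      Finset.single_le_sum (f := fun j : Fin m => ‖p j.succ.succ‖ ^ 2)
        (fun _ _ => by positivity) (Finset.mem_univ j)
    have h4 : ‖p j.succ.succ‖ ^ 2 ≤ 0 := by nlinarith [sq_nonneg ‖p 1‖]
    have : ‖p j.succ.succ‖ = 0 := by
      nlinarith [norm_nonneg (p j.succ.succ), sq_nonneg ‖p j.succ.succ‖]
    exact norm_eq_zero.1 this
  funext j
  refine Fin.cases ?_ (fun j => ?_) j
  · rw [hp0]; simp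
  · refine Fin.cases ?_ (fun j => ?_) j
    · rw [Pi.single_eq_of_ne (Fin.succ_ne_zero _)]
      exact hp1'
    · rw [Pi.single_eq_of_ne (Fin.succ_ne_zero _)]
      exact hps j

lemma cb_diff_pole_sub : closedUnitBall (m + 2) \ {Pi.single 0 1} ⊆ HS m := by
  intro p hp
  by_contra h
  exact hp.2 (cb_pole hp.1 h)

lemma pole_mem : (Pi.single 0 1 : Fin (m + 2) → ℂ) ∈ unitSphere (m + 2) := by
  show ∑ j, ‖(Pi.single 0 1 : Fin (m + 2) → ℂ) j‖ ^ 2 = 1
  rw [Finset.sum_eq_single 0]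
  · simp
  · intro j _ hj
    rw [Pi.single_eq_of_ne hj]
    simp
  · simp

lemma contOn_Fm (hb : ContinuousOn b {z | z.re ≤ 1}) :
    ContinuousOn (Fm m b) (closedUnitBall (m + 2)) := by
  have hj : ∀ j : Fin (m + 2), Continuous (fun p : Fin (m + 2) → ℂ => p j) := continuous_apply
  rw [continuousOn_pi]
  intro j
  by_cases h1 : j = 1
  · subst h1
    have : (fun p : Fin (m + 2) → ℂ => Fm m b p 1) = fun p => b (p 0) + (1 - p 0) * p 1 := by
      funext p
      simp only [Fm, upd_one]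
    rw [this]
    have hb0 : ContinuousOn (fun p : Fin (m + 2) → ℂ => b (p 0)) (closedUnitBall (m + 2)) :=
      hb.comp (hj 0).continuousOn (fun p hp => cb_re_le hp)
    exact hb0.add ((continuous_const.sub (hj 0)).mul (hj 1)).continuousOn
  · have : (fun p : Fin (m + 2) → ℂ => Fm m b p j) = fun p => p j := by
      funext p
      simp only [Fm, Function.update_of_ne h1]
    rw [this]
    exact (hj j).continuousOn

lemma Fm_zero (p : Fin (m + 2) → ℂ) : Fm m b p 0 = p 0 := by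
  unfold Fm
  exact upd_zero _ _

lemma Gm_zero (p : Fin (m + 2) → ℂ) : Gm m b p 0 = p 0 := by
  unfold Gm
  exact upd_zero _ _

lemma ne_one_of_re {z : ℂ} (hz : z.re < 1) : (1 : ℂ) - z ≠ 0 := by
  intro h
  have : z = 1 := (sub_eq_zero.1 h).symm
  rw [this, Complex.one_re] at hz
  exact lt_irrefl _ hz

lemma Gm_Fm' {p : Fin (m + 2) → ℂ} (hp : p ∈ HS m) : Gm m b (Fm m b p) = p := by
  have h := ne_one_of_re hp
  unfold Gm Fm
  simp only [upd_zero, upd_one, Function.update_idem]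
  have : (b (p 0) + (1 - p 0) * p 1 - b (p 0)) / (1 - p 0) = p 1 := by
    field_simp
    ring
  rw [this, Function.update_eq_self]

lemma Fm_Gm' {p : Fin (m + 2) → ℂ} (hp : p ∈ HS m) : Fm m b (Gm m b p) = p := by
  have h := ne_one_of_re hp
  unfold Gm Fm
  simp only [upd_zero, upd_one, Function.update_idem]
  have : b (p 0) + (1 - p 0) * ((p 1 - b (p 0)) / (1 - p 0)) = p 1 := by
    field_simp
    ring
  rw [this, Function.update_eq_self]

lemma injOn_Fm : InjOn (Fm m b) (closedUnitBall (m + 2)) := by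
  intro p hp q hq h
  have h0 : p 0 = q 0 := by
    have := congrFun h 0
    rwa [Fm_zero, Fm_zero] at this
  by_cases h1 : (p 0).re < 1
  · have h2 : (q 0).re < 1 := h0 ▸ h1
    rw [← Gm_Fm' (b := b) h1, h, Gm_Fm' h2]
  · have h2 : ¬ (q 0).re < 1 := h0 ▸ h1
    rw [cb_pole hp h1, cb_pole hq h2]

lemma diffOn_Fm (hb : DifferentiableOn ℂ b HP) : DifferentiableOn ℂ (Fm m b) (HS m) := by
  rw [differentiableOn_pi]
  intro j
  have hj : ∀ j : Fin (m + 2), DifferentiableOn ℂ (fun p : Fin (m + 2) → ℂ => p j) (HS m) :=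
    fun j => (differentiable_apply (𝕜 := ℂ) j).differentiableOn
  by_cases h1 : j = 1
  · subst h1
    have : (fun p : Fin (m + 2) → ℂ => Fm m b p 1) = fun p => b (p 0) + (1 - p 0) * p 1 := by
      funext p
      simp only [Fm, upd_one]
    rw [this]
    exact (diff0 hb).add (((differentiableOn_const _).sub (hj 0)).mul (hj 1))
  · have : (fun p : Fin (m + 2) → ℂ => Fm m b p j) = fun p => p j := by
      funext p
      simp only [Fm, Function.update_of_ne h1]
    rw [this]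
    exact hj j

lemma diffOn_Gm (hb : DifferentiableOn ℂ b HP) : DifferentiableOn ℂ (Gm m b) (HS m) := by
  rw [differentiableOn_pi]
  intro j
  have hj : ∀ j : Fin (m + 2), DifferentiableOn ℂ (fun p : Fin (m + 2) → ℂ => p j) (HS m) :=
    fun j => (differentiable_apply (𝕜 := ℂ) j).differentiableOn
  by_cases h1 : j = 1
  · subst h1
    have : (fun p : Fin (m + 2) → ℂ => Gm m b p 1) = fun p => (p 1 - b (p 0)) / (1 - p 0) := by
      funext p
      simp only [Gm, upd_one]
    rw [this]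
    have h2 : DifferentiableOn ℂ (fun p : Fin (m + 2) → ℂ => (1 - p 0)⁻¹) (HS m) := by
      apply DifferentiableOn.fun_inv
      · exact (differentiableOn_const (1 : ℂ)).fun_sub (hj 0)
      · intro p hp
        exact ne_one_of_re hp
    simp_rw [div_eq_mul_inv]
    exact ((hj 1).fun_sub (diff0 hb)).fun_mul h2
  · have : (fun p : Fin (m + 2) → ℂ => Gm m b p j) = fun p => p j := by
      funext p
      simp only [Gm, Function.update_of_ne h1]
    rw [this]
    exact hj j

lemma mapsTo_Fm : MapsTo (Fm m b) (HS m) (HS m) := by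
  intro p hp
  show (Fm m b p 0).re < 1
  rw [Fm_zero]
  exact hp

lemma mapsTo_Gm : MapsTo (Gm m b) (HS m) (HS m) := by
  intro p hp
  show (Gm m b p 0).re < 1
  rw [Gm_zero]
  exact hp

lemma image_Fm : Fm m b '' (unitBall (m + 2)) = Om m b := by
  ext p
  constructor
  · rintro ⟨q, hq, rfl⟩
    exact Fm_mem hq
  · intro hp
    exact ⟨Gm m b p, (mem_Om_iff_Gm b p).1 hp, Fm_Gm (lt_of_mem_Om hp)⟩

lemma closure_Om (hb : ContinuousOn b {z | z.re ≤ 1}) :
    closure (Om m b) = Fm m b '' (closedUnitBall (m + 2)) := by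
  rw [← image_Fm]
  apply Subset.antisymm
  · apply closure_minimal (image_mono (ball_sub_cb _))
    exact ((isCompact_cb _).image_of_continuousOn (contOn_Fm hb)).isClosed
  · rw [← closure_ball]
    apply ContinuousOn.image_closure
    rw [closure_ball]
    exact contOn_Fm hb

lemma frontier_Om (hb : ContinuousOn b {z | z.re ≤ 1}) (hb2 : DifferentiableOn ℂ b HP) :
    frontier (Om m b) = Fm m b '' (unitSphere (m + 2)) := by
  have ho : IsOpen (Om m b) := isOpen_Om (hb2.mono ball_subset_HP)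
  rw [frontier, ho.interior_eq, closure_Om hb, ← image_Fm,
    ← injOn_Fm.image_sdiff_subset (ball_sub_cb _)]
  congr 1
  ext z
  rw [Set.mem_sdiff]
  constructor
  · rintro ⟨h1, h2⟩
    exact le_antisymm h1 (not_lt.1 h2)
  · intro h
    exact ⟨le_of_eq h, fun h2 => absurd h (ne_of_lt h2)⟩

/-- on the closure of the domain, `|w - b(z)| ≤ 2 (1 - Re z)` -/
lemma thin_cl (hb : ContinuousOn b {z | z.re ≤ 1}) {p : Fin (m + 2) → ℂ}
    (hp : p ∈ closure (Om m b)) : ‖p 1 - b (p 0)‖ ≤ 2 * (1 - (p 0).re) := by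
  rw [closure_Om hb] at hp
  obtain ⟨q, hq, rfl⟩ := hp
  have hre := cb_re_le hq
  have e1 : Fm m b q 1 = b (q 0) + (1 - q 0) * q 1 := by
    unfold Fm
    exact upd_one _ _
  rw [Fm_zero, e1, add_sub_cancel_left, norm_mul]
  rw [mem_cb] at hq
  have h1 := sum_nonneg' q
  have h2 : ‖(1 : ℂ) - q 0‖ ^ 2 = 1 - 2 * (q 0).re + ‖q 0‖ ^ 2 := by
    rw [← Complex.normSq_eq_norm_sq, ← Complex.normSq_eq_norm_sq, Complex.normSq_apply,
      Complex.normSq_apply]
    simp
    ring
  have h3 : (q 0).re ^ 2 ≤ ‖q 0‖ ^ 2 := by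
    rw [← Complex.normSq_eq_norm_sq, Complex.normSq_apply]
    nlinarith [sq_nonneg (q 0).im]
  have h4 : ‖q 1‖ ^ 2 ≤ 1 - ‖q 0‖ ^ 2 := by linarith
  have h6 : (‖1 - q 0‖ * ‖q 1‖) ^ 2 ≤ (2 * (1 - (q 0).re)) ^ 2 := by
    rw [mul_pow, h2]
    have e1 : 1 - ‖q 0‖ ^ 2 ≤ 2 * (1 - (q 0).re) := by nlinarith [sq_nonneg (1 - (q 0).re)]
    have e2 : 1 - 2 * (q 0).re + ‖q 0‖ ^ 2 ≤ 2 * (1 - (q 0).re) := by
      nlinarith [sq_nonneg ‖q 1‖]
    have e4 : 0 ≤ 1 - 2 * (q 0).re + ‖q 0‖ ^ 2 := by nlinarith [sq_nonneg (1 - (q 0).re)]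
    calc (1 - 2 * (q 0).re + ‖q 0‖ ^ 2) * ‖q 1‖ ^ 2
        ≤ (2 * (1 - (q 0).re)) * (2 * (1 - (q 0).re)) := by
          apply mul_le_mul e2 (h4.trans e1) (by positivity) (by linarith)
      _ = _ := by ring
  exact le_of_sq_le_sq h6 (by linarith)

/-- the form is continuous on the closure of the domain -/
lemma contOn_fl {f g : CP →ᵇ ℂ} (hf : f ∈ XX) (hg : g ∈ LL) :
    ContinuousOn (fl m (xt f) (lg g)) (closure (Om m (xt f))) := by
  have hbc := continuousOn_xt f
  have hcl := closure_Om (m := m) hbc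
  have hre : ∀ p ∈ closure (Om m (xt f)), (p 0).re ≤ 1 := by
    intro p hp
    rw [hcl] at hp
    obtain ⟨q, hq, rfl⟩ := hp
    rw [Fm_zero]
    exact cb_re_le hq
  intro p hp
  by_cases h : (p 0).re < 1
  · have h1 : ContinuousOn (fl m (xt f) (lg g)) (HS m) := by
      rw [continuousOn_pi]
      intro j
      exact (contDiffOn_fl hf hg.1 j).continuousOn
    exact (h1.continuousAt ((isOpen_HS m).mem_nhds h)).continuousWithinAt
  · -- the singular point
    have hp0 : p 0 = 1 := by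
      rw [hcl] at hp
      obtain ⟨q, hq, rfl⟩ := hp
      rw [Fm_zero] at h ⊢
      rw [cb_pole hq h]
      simp
    have hval : ∀ q ∈ closure (Om m (xt f)), ‖fl m (xt f) (lg g) q‖ ≤ 2 * ‖xt g (q 0)‖ := by
      intro q hq
      have hq1 := hre q hq
      have hth := thin_cl hbc hq
      have hlg : ‖lg g (q 0)‖ * (1 - (q 0).re) ≤ ‖xt g (q 0)‖ := by
        unfold lg
        rw [norm_mul, norm_inv, Complex.norm_real, Real.norm_eq_abs,
          abs_of_nonneg (by linarith)]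
        rcases hq1.lt_or_eq with h1 | h1
        · have h2 : 1 - (q 0).re ≠ 0 := by linarith
          rw [mul_assoc, inv_mul_cancel₀ h2, mul_one]
        · rw [h1]
          simp
      have h0 : 0 ≤ ‖lg g (q 0)‖ := norm_nonneg _
      rw [pi_norm_le_iff_of_nonneg (by positivity)]
      intro j
      refine Fin.cases ?_ (fun j => ?_) j
      · rw [fl_zero, norm_mul, norm_neg, Complex.norm_conj]
        calc ‖lg g (q 0)‖ * ‖q 1 - xt f (q 0)‖ ≤ ‖lg g (q 0)‖ * (2 * (1 - (q 0).re)) := by gcongr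
          _ ≤ 2 * ‖xt g (q 0)‖ := by linarith
      · refine Fin.cases ?_ (fun j => ?_) j
        · have e0 : (Fin.succ 0 : Fin (m + 2)) = 1 := rfl
          rw [e0, fl_one, norm_mul]
          have e : (2 - q 0 - conj (q 0)) = ((2 * (1 - (q 0).re) : ℝ) : ℂ) := by
            apply Complex.ext
            · simp
              ring
            · simp
          rw [e, Complex.norm_real, Real.norm_eq_abs, abs_of_nonneg (by linarith)]
          linarith
        · rw [fl_ss, norm_zero]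
          positivity
    have hzero : fl m (xt f) (lg g) p = 0 := by
      have := hval p hp
      rw [hp0, hg.2, norm_zero, mul_zero] at this
      exact norm_le_zero_iff.1 this
    rw [ContinuousWithinAt, hzero, tendsto_zero_iff_norm_tendsto_zero]
    have hlim : Tendsto (fun q : Fin (m + 2) → ℂ => 2 * ‖xt g (q 0)‖)
        (𝓝[closure (Om m (xt f))] p) (𝓝 0) := by
      have h1 : ContinuousWithinAt (xt g) {z | z.re ≤ 1} (p 0) :=
        continuousOn_xt g (p 0) (hre p hp)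
      have h2 : Tendsto (fun q : Fin (m + 2) → ℂ => q 0) (𝓝[closure (Om m (xt f))] p)
          (𝓝[{z | z.re ≤ 1}] (p 0)) := by
        apply tendsto_nhdsWithin_of_tendsto_nhds_of_eventually_within
        · exact ((continuous_apply 0).tendsto p).mono_left nhdsWithin_le_nhds
        · filter_upwards [self_mem_nhdsWithin] with q hq
          exact hre q hq
      have h3 : Tendsto (fun q : Fin (m + 2) → ℂ => xt g (q 0))
          (𝓝[closure (Om m (xt f))] p) (𝓝 (xt g (p 0))) := h1.tendsto.comp h2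
      rw [hp0, hg.2] at h3
      have h4 := h3.norm.const_mul 2
      rwa [norm_zero, mul_zero] at h4
    apply squeeze_zero' _ _ hlim
    · exact Eventually.of_forall fun q => norm_nonneg _
    · filter_upwards [self_mem_nhdsWithin] with q hq
      exact hval q hq

end Pool.Agent.KS6_90.UF
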