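import Pool.Agent.KS6_90.UF.Star

/-! The two Banach spaces: bounded continuous functions on the closed half plane which are
holomorphic inside, and the weighted space of the multipliers `λ`. -/

open MeasureTheory Set Filter
open scoped ContDiff ComplexConjugate BoundedContinuousFunction Topology

namespace Pool.Agent.KS6_90.UF

open Pool.Agent.Helper303.Db

/-- the closed half plane as a type -/
abbrev CP : Type := {z : ℂ // z.re ≤ 1}

open Classical in
/-- extension by zero -/
noncomputable def xt (f : CP →ᵇ ℂ) (z : ℂ) : ℂ := if h : z.re ≤ 1 then f ⟨z, h⟩ else 0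

lemma xt_of_le (f : CP →ᵇ ℂ) {z : ℂ} (h : z.re ≤ 1) : xt f z = f ⟨z, h⟩ := by
  simp only [xt, dif_pos h]

lemma xt_add (f g : CP →ᵇ ℂ) (z : ℂ) : xt (f + g) z = xt f z + xt g z := by
  by_cases h : z.re ≤ 1
  · rw [xt_of_le _ h, xt_of_le _ h, xt_of_le _ h]
    rfl
  · simp only [xt, dif_neg h, add_zero]

lemma xt_smul (c : ℂ) (f : CP →ᵇ ℂ) (z : ℂ) : xt (c • f) z = c * xt f z := by
  by_cases h : z.re ≤ 1
  · rw [xt_of_le _ h, xt_of_le _ h]
    rfl
  · simp only [xt, dif_neg h, mul_zero]

lemma xt_zero (z : ℂ) : xt 0 z = 0 := by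
  by_cases h : z.re ≤ 1
  · rw [xt_of_le _ h]
    rfl
  · simp only [xt, dif_neg h]

lemma norm_xt_le (f : CP →ᵇ ℂ) (z : ℂ) : ‖xt f z‖ ≤ ‖f‖ := by
  by_cases h : z.re ≤ 1
  · rw [xt_of_le _ h]
    exact f.norm_coe_le_norm _
  · simp only [xt, dif_neg h, norm_zero]
    exact norm_nonneg _

lemma continuousOn_xt (f : CP →ᵇ ℂ) : ContinuousOn (xt f) {z | z.re ≤ 1} := by
  rw [continuousOn_iff_continuous_domRestrict]
  have : ({z : ℂ | z.re ≤ 1}.domRestrict (xt f)) = fun z => f ⟨z.1, z.2⟩ := by
    funext z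
    exact xt_of_le f z.2
  rw [this]
  exact f.continuous

/-- bounded continuous on the closed half plane, holomorphic inside -/
noncomputable def XX : Submodule ℂ (CP →ᵇ ℂ) where
  carrier := {f | DifferentiableOn ℂ (xt f) HP}
  add_mem' := by
    intro f g hf hg
    show DifferentiableOn ℂ (xt (f + g)) HP
    rw [funext (xt_add f g)]
    exact DifferentiableOn.fun_add hf hg
  zero_mem' := by
    show DifferentiableOn ℂ (xt 0) HP
    rw [funext xt_zero]
    exact differentiableOn_const _
  smul_mem' := by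
    intro c f hf
    show DifferentiableOn ℂ (xt (c • f)) HP
    rw [funext (xt_smul c f)]
    exact DifferentiableOn.const_mul hf c

lemma mem_XX (f : CP →ᵇ ℂ) : f ∈ XX ↔ DifferentiableOn ℂ (xt f) HP := Iff.rfl

lemma xt_dist (f g : CP →ᵇ ℂ) (z : ℂ) : dist (xt f z) (xt g z) ≤ dist f g := by
  by_cases h : z.re ≤ 1
  · rw [xt_of_le _ h, xt_of_le _ h]
    exact BoundedContinuousFunction.dist_coe_le_dist _
  · simp only [xt, dif_neg h, dist_self]
    exact dist_nonneg

lemma isClosed_XX : IsClosed (XX : Set (CP →ᵇ ℂ)) := by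
  rw [← isSeqClosed_iff_isClosed]
  intro u f hu hlim
  show DifferentiableOn ℂ (xt f) HP
  have h1 : TendstoUniformlyOn (fun n => xt (u n)) (xt f) Filter.atTop HP := by
    rw [Metric.tendstoUniformlyOn_iff]
    intro ε hε
    filter_upwards [Metric.tendsto_nhds.1 hlim ε hε] with n hn z hz
    rw [dist_comm]
    exact lt_of_le_of_lt (xt_dist _ _ _) hn
  exact h1.tendstoLocallyUniformlyOn.differentiableOn (Filter.Eventually.of_forall fun n => hu n)
    isOpen_HP

instance : CompleteSpace XX := isClosed_XX.completeSpace_coe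

/-- the multiplier attached to `g` -/
noncomputable def lg (g : CP →ᵇ ℂ) (z : ℂ) : ℂ := xt g z * ((1 - z.re : ℝ) : ℂ)⁻¹

lemma lg_add (f g : CP →ᵇ ℂ) (z : ℂ) : lg (f + g) z = lg f z + lg g z := by
  simp only [lg, xt_add]
  ring

lemma lg_smul (c : ℂ) (f : CP →ᵇ ℂ) (z : ℂ) : lg (c • f) z = c * lg f z := by
  simp only [lg, xt_smul]
  ring

/-- the space of the functions `(1 - Re z) λ(z)`, vanishing at the point `1` -/
noncomputable def LL : Submodule ℂ (CP →ᵇ ℂ) where
  carrier := {g | DifferentiableOn ℂ (lg g) HP ∧ xt g 1 = 0}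
  add_mem' := by
    intro f g hf hg
    show DifferentiableOn ℂ (lg (f + g)) HP ∧ xt (f + g) 1 = 0
    rw [funext (lg_add f g), xt_add, hf.2, hg.2, add_zero]
    exact ⟨DifferentiableOn.fun_add hf.1 hg.1, rfl⟩
  zero_mem' := by
    show DifferentiableOn ℂ (lg 0) HP ∧ xt 0 1 = 0
    have : lg 0 = fun _ => 0 := by
      funext z
      simp only [lg, xt_zero, zero_mul]
    rw [this, xt_zero]
    exact ⟨differentiableOn_const _, rfl⟩
  smul_mem' := by
    intro c f hf
    show DifferentiableOn ℂ (lg (c • f)) HP ∧ xt (c • f) 1 = 0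
    rw [funext (lg_smul c f), xt_smul, hf.2, mul_zero]
    exact ⟨DifferentiableOn.const_mul hf.1 c, rfl⟩

lemma mem_LL (f : CP →ᵇ ℂ) : f ∈ LL ↔ DifferentiableOn ℂ (lg f) HP ∧ xt f 1 = 0 := Iff.rfl

lemma isClosed_LL : IsClosed (LL : Set (CP →ᵇ ℂ)) := by
  rw [← isSeqClosed_iff_isClosed]
  intro u f hu hlim
  show DifferentiableOn ℂ (lg f) HP ∧ xt f 1 = 0
  constructor
  · have h1 : TendstoLocallyUniformlyOn (fun n => lg (u n)) (lg f) Filter.atTop HP := by
      rw [Metric.tendstoLocallyUniformlyOn_iff]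
      intro ε hε x hx
      have hx' : 0 < (1 - x.re) / 2 := by
        have := (mem_HP x).1 hx
        linarith
      refine ⟨{z | z.re < x.re + (1 - x.re) / 2}, ?_, ?_⟩
      · apply mem_nhdsWithin_of_mem_nhds
        apply (isOpen_lt Complex.continuous_re continuous_const).mem_nhds
        show x.re < x.re + (1 - x.re) / 2
        linarith
      · filter_upwards [Metric.tendsto_nhds.1 hlim (ε * ((1 - x.re) / 2)) (by positivity)]
          with n hn z hz
        have hz' : (1 - x.re) / 2 < 1 - z.re := by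
          have : z.re < x.re + (1 - x.re) / 2 := hz
          linarith
        have hz0 : 0 < 1 - z.re := hx'.trans hz'
        rw [dist_comm, dist_eq_norm]
        have e : lg (u n) z - lg f z = (xt (u n) z - xt f z) * ((1 - z.re : ℝ) : ℂ)⁻¹ := by
          simp only [lg]
          ring
        rw [e, norm_mul, norm_inv, Complex.norm_real, Real.norm_eq_abs, abs_of_pos hz0,
          ← dist_eq_norm, ← div_eq_mul_inv, div_lt_iff₀ hz0]
        calc dist (xt (u n) z) (xt f z) ≤ dist (u n) f := xt_dist _ _ _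
          _ < ε * ((1 - x.re) / 2) := hn
          _ ≤ ε * (1 - z.re) := by gcongr
    exact h1.differentiableOn (Filter.Eventually.of_forall fun n => (hu n).1) isOpen_HP
  · have h2 : Tendsto (fun n => xt (u n) 1) atTop (𝓝 (xt f 1)) := by
      rw [Metric.tendsto_nhds] at hlim ⊢
      intro ε hε
      filter_upwards [hlim ε hε] with n hn
      exact lt_of_le_of_lt (xt_dist _ _ _) hn
    have h3 : (fun n => xt (u n) 1) = fun _ => (0 : ℂ) := funext fun n => (hu n).2
    rw [h3] at h2
    exact tendsto_nhds_unique h2 tendsto_const_nhds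

instance : CompleteSpace LL := isClosed_LL.completeSpace_coe

/-! functionals -/

lemma exists_S {φ : ℂ → ℂ} (hφ : Continuous φ) (hc : HasCompactSupport φ)
    (hs : tsupport φ ⊆ HP) : ∃ S : LL →L[ℂ] ℂ, ∀ g : LL, S g = ∫ z, lg g.1 z * φ z := by
  -- `ψ = φ / (1 - Re z)`
  let w : ℂ → ℂ := fun z => ((1 - z.re : ℝ) : ℂ)⁻¹
  have hw : ContinuousOn w HP := by
    apply ContinuousOn.inv₀
    · exact (Complex.continuous_ofReal.comp
        (continuous_const.sub Complex.continuous_re)).continuousOn
    · intro z hz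
      have : 0 < 1 - z.re := by
        have := (mem_HP z).1 hz
        linarith
      exact_mod_cast this.ne'
  have hψ : Continuous fun z => w z * φ z := cont_mul isOpen_HP hw hφ hs
  have hψc : HasCompactSupport fun z => w z * φ z := hc.mul_left
  have hint : ∀ g : LL, Integrable fun z => lg g.1 z * φ z := by
    intro g
    have h1 : ContinuousOn (lg g.1) HP := g.2.1.continuousOn
    exact (cont_mul isOpen_HP h1 hφ hs).integrable_of_hasCompactSupport hc.mul_left
  let L : LL →ₗ[ℂ] ℂ :=
    { toFun := fun g => ∫ z, lg g.1 z * φ z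
      map_add' := by
        intro f h
        rw [← integral_add (hint f) (hint h)]
        congr 1
        funext z
        have : lg (f + h : LL).1 z = lg f.1 z + lg h.1 z := lg_add f.1 h.1 z
        rw [this]
        ring
      map_smul' := by
        intro c f
        simp only [RingHom.id_apply, smul_eq_mul]
        rw [← integral_const_mul]
        congr 1
        funext z
        have : lg (c • f : LL).1 z = c * lg f.1 z := lg_smul c f.1 z
        rw [this]
        ring }
  refine ⟨L.mkContinuous (∫ z, ‖w z * φ z‖) ?_, fun f => rfl⟩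
  intro f
  show ‖∫ z, lg f.1 z * φ z‖ ≤ _
  have hgi : Integrable fun z => ‖w z * φ z‖ := (hψ.integrable_of_hasCompactSupport hψc).norm
  have h1 : ‖∫ z, lg f.1 z * φ z‖ ≤ ∫ z, ‖w z * φ z‖ * ‖f.1‖ := by
    apply norm_integral_le_of_norm_le (hgi.mul_const _)
    apply Filter.Eventually.of_forall
    intro z
    have e : lg f.1 z * φ z = (w z * φ z) * xt f.1 z := by
      simp only [lg, w]
      ring
    rw [e, norm_mul]
    exact mul_le_mul_of_nonneg_left (norm_xt_le _ _) (norm_nonneg _)
  refine h1.trans (le_of_eq ?_)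
  rw [integral_mul_const]
  rfl

lemma deriv_boundX {f : CP →ᵇ ℂ} (hf : f ∈ XX) {r : ℝ} (hr1 : r < 1) {z : ℂ}
    (hz : ‖z‖ ≤ r) : ‖deriv (xt f) z‖ ≤ ‖f‖ / ((1 - r) / 2) := by
  have hpos : 0 < (1 - r) / 2 := by linarith
  apply Complex.norm_deriv_le_of_forall_mem_sphere_norm_le hpos
  · apply DifferentiableOn.diffContOnCl_ball (U := Metric.ball 0 1)
      (((mem_XX f).1 hf).mono ball_subset_HP)
    intro w hw
    rw [mem_closedBall_iff_norm] at hw
    rw [mem_ball_zero_iff]
    have := norm_add_le (w - z) z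
    rw [sub_add_cancel] at this
    linarith
  · intro w _
    exact norm_xt_le f w

lemma exists_TX {g : ℂ → ℂ} (hg : Continuous g) (hc : HasCompactSupport g)
    (hs : tsupport g ⊆ Metric.ball 0 1) :
    ∃ T : XX →L[ℂ] ℂ, ∀ f : XX, T f = ∫ z, g z * deriv (xt f.1) z := by
  obtain ⟨r, hr0, hr1, hr⟩ := compact_lt hc hs
  have hpos : 0 < (1 - r) / 2 := by linarith
  have hint : ∀ f : XX, Integrable fun z => g z * deriv (xt f.1) z := by
    intro f
    have h1 : ContinuousOn (deriv (xt f.1)) HP :=
      (((mem_XX f.1).1 f.2).deriv isOpen_HP).continuousOn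
    have h2 := cont_mul isOpen_HP h1 hg (hs.trans ball_subset_HP)
    have h3 : (fun z => deriv (xt f.1) z * g z) = fun z => g z * deriv (xt f.1) z := by
      funext z
      ring
    rw [h3] at h2
    exact h2.integrable_of_hasCompactSupport hc.mul_right
  let L : XX →ₗ[ℂ] ℂ :=
    { toFun := fun f => ∫ z, g z * deriv (xt f.1) z
      map_add' := by
        intro f h
        rw [← integral_add (hint f) (hint h)]
        congr 1
        funext z
        by_cases hz : z ∈ tsupport g
        · have hzb : z ∈ HP := ball_subset_HP (hs hz)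
          have d1 : DifferentiableAt ℂ (xt f.1) z :=
            ((mem_XX _).1 f.2).differentiableAt (isOpen_HP.mem_nhds hzb)
          have d2 : DifferentiableAt ℂ (xt h.1) z :=
            ((mem_XX _).1 h.2).differentiableAt (isOpen_HP.mem_nhds hzb)
          have : xt (f + h : XX).1 = fun z => xt f.1 z + xt h.1 z := funext (xt_add f.1 h.1)
          rw [this, deriv_fun_add d1 d2]
          ring
        · rw [image_eq_zero_of_notMem_tsupport hz]
          simp
      map_smul' := by
        intro c f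
        simp only [RingHom.id_apply, smul_eq_mul]
        rw [← integral_const_mul]
        congr 1
        funext z
        by_cases hz : z ∈ tsupport g
        · have hzb : z ∈ HP := ball_subset_HP (hs hz)
          have d1 : DifferentiableAt ℂ (xt f.1) z :=
            ((mem_XX _).1 f.2).differentiableAt (isOpen_HP.mem_nhds hzb)
          have : xt (c • f : XX).1 = fun z => c * xt f.1 z := funext (xt_smul c f.1)
          rw [this, deriv_const_mul _ d1]
          ring
        · rw [image_eq_zero_of_notMem_tsupport hz]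
          simp }
  refine ⟨L.mkContinuous ((∫ z, ‖g z‖) * (1 / ((1 - r) / 2))) ?_, fun f => rfl⟩
  intro f
  show ‖∫ z, g z * deriv (xt f.1) z‖ ≤ _
  have hgi : Integrable fun z => ‖g z‖ := (hg.integrable_of_hasCompactSupport hc).norm
  have h1 : ‖∫ z, g z * deriv (xt f.1) z‖ ≤ ∫ z, ‖g z‖ * (‖f.1‖ / ((1 - r) / 2)) := by
    apply norm_integral_le_of_norm_le (hgi.mul_const _)
    apply Filter.Eventually.of_forall
    intro z
    rw [norm_mul]
    by_cases hz : z ∈ tsupport g
    · exact mul_le_mul_of_nonneg_left (deriv_boundX f.2 hr1 (hr z hz)) (norm_nonneg _)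
    · rw [image_eq_zero_of_notMem_tsupport hz]
      simp
  refine h1.trans (le_of_eq ?_)
  rw [integral_mul_const]
  have : ‖f‖ = ‖f.1‖ := rfl
  rw [this]
  ring

/-! the test elements -/

/-- `b_K` as an element of `XX` -/
noncomputable def fX (K : ℕ) (hK : 0 < K) : CP →ᵇ ℂ :=
  BoundedContinuousFunction.ofNormedAddCommGroup
    (fun z : CP => bb (RR K) (PQ (1 / Real.sqrt K) K).1 z.1)
    ((diff_bb _ _).continuous.comp continuous_subtype_val) 2 (by
      intro z
      unfold bb
      apply PQ_bound hK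
      rw [Complex.norm_exp, Real.exp_le_one_iff]
      have hre : z.1.re ≤ 1 := z.2
      have hR := RR_pos K
      rw [Complex.neg_re, Complex.re_ofReal_mul]
      simp only [Complex.sub_re, Complex.one_re]
      nlinarith)

lemma fX_xt (K : ℕ) (hK : 0 < K) {z : ℂ} (hz : z.re ≤ 1) :
    xt (fX K hK) z = bb (RR K) (PQ (1 / Real.sqrt K) K).1 z := by
  rw [xt_of_le _ hz]
  rfl

lemma fX_mem (K : ℕ) (hK : 0 < K) : fX K hK ∈ XX := by
  rw [mem_XX]
  exact (diff_bb (RR K) (PQ (1 / Real.sqrt K) K).1).differentiableOn.congr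
    (fun z hz => fX_xt K hK (le_of_lt hz))

lemma fX_norm (K : ℕ) (hK : 0 < K) : ‖fX K hK‖ ≤ 2 :=
  BoundedContinuousFunction.norm_ofNormedAddCommGroup_le _ (by norm_num) _

lemma fX_deriv (K : ℕ) (hK : 0 < K) {z : ℂ} (hz : z ∈ HP) :
    deriv (xt (fX K hK)) z = deriv (bb (RR K) (PQ (1 / Real.sqrt K) K).1) z := by
  apply Filter.EventuallyEq.deriv_eq
  filter_upwards [isOpen_HP.mem_nhds hz] with w hw
  exact fX_xt K hK (le_of_lt hw)

/-- `(1 - Re z) λ_K(z)` as an element of `LL` -/
noncomputable def gX (K : ℕ) : CP →ᵇ ℂ :=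
  BoundedContinuousFunction.ofNormedAddCommGroup
    (fun z : CP => ((1 - z.1.re : ℝ) : ℂ) * lam K (RR K) z.1)
    ((Complex.continuous_ofReal.comp (continuous_const.sub
      (Complex.continuous_re.comp continuous_subtype_val))).mul
      ((diff_lam K (RR K)).continuous.comp continuous_subtype_val)) (3 / 4) (by
      intro z
      rw [norm_mul, Complex.norm_real, Real.norm_eq_abs,
        abs_of_nonneg (by have : z.1.re ≤ 1 := z.2; linarith)]
      rcases (show z.1.re ≤ 1 from z.2).lt_or_eq with h | h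
      · have h1 := norm_lam (K := K) (RR_pos K) h
        have h2 : 0 < 1 - z.1.re := by linarith
        calc (1 - z.1.re) * ‖lam K (RR K) z.1‖ ≤ (1 - z.1.re) * ((3 / 4) / (1 - z.1.re)) := by
              gcongr
          _ = 3 / 4 := by field_simp
      · rw [h]
        norm_num)

lemma gX_xt (K : ℕ) {z : ℂ} (hz : z.re ≤ 1) :
    xt (gX K) z = ((1 - z.re : ℝ) : ℂ) * lam K (RR K) z := by
  rw [xt_of_le _ hz]
  rfl

lemma gX_lg (K : ℕ) {z : ℂ} (hz : z.re < 1) : lg (gX K) z = lam K (RR K) z := by
  unfold lg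
  rw [gX_xt K hz.le]
  have h : ((1 - z.re : ℝ) : ℂ) ≠ 0 := by
    have : 1 - z.re ≠ 0 := by linarith
    exact_mod_cast this
  field_simp

lemma gX_mem (K : ℕ) : gX K ∈ LL := by
  rw [mem_LL]
  refine ⟨(diff_lam K (RR K)).differentiableOn.congr (fun z hz => gX_lg K hz), ?_⟩
  rw [gX_xt K (by simp)]
  simp

lemma gX_norm (K : ℕ) : ‖gX K‖ ≤ 3 / 4 :=
  BoundedContinuousFunction.norm_ofNormedAddCommGroup_le _ (by norm_num) _

end Pool.Agent.KS6_90.UF
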